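import Pool.Agent.N646.MC.Forced
import Pool.Agent.N646.MC.Zfc

/-!
# `b_b^eq < non(E)` for all summable `b`

For sets `Λ` and `K` with `#K ^ ℵ₀ = #K < #Λ` the preordered set `Cond Λ` forces the combinatorial
sentence `Phi K` (`PhiHolds (Cond Λ) K` is its literal translation into the forcing language), and
this sentence implies that `b_b^eq ≤ #K < non(E)` for all `b` with `∑ 1 / b k < ∞`.

Idea. A condition has a countable domain `D ⊆ Λ`, a stem, and an infinite sequence of blocks; a
block gives a finite set of natural numbers for finitely many elements of `D`, and these sets get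
larger and larger for each element of `D`. The stem is extended by choosing some block and, for
each `α` which is active in it, two elements of its finite set; the earlier blocks are lost. The
finite Ramsey theorem gives pure decision, as for Mathias forcing. By fusion, each function
`h ∈ ∏ (k + 1)` of the extension is eventually different from a function of the ground model, and
each real which is read by a condition without `β` in its domain has the same value at the two
elements of almost all pairs chosen at `β`, so it belongs to a closed null set depending only on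
`β`. Finally, if `∑ 1 / b k < ∞` then after deleting finitely many `k` one can number the remaining
ones such that the `j`-th of them has `b k > j`, so that `b_b^eq ≤ b_(k+1)^eq`.
-/

set_option autoImplicit false

namespace Pool.Agent.Results.MP_00464d_lc.EqBelowNonE

open Cardinal Pool.Agent.N646.MC
open Pool.Agent.R593.Eq (beq nonE)

/-- (A) For all sets `Λ` and `K` with at least two elements such that `#K ^ ℵ₀ = #K < #Λ` (there
are such sets) all conditions of `Cond Λ` force `Phi K`. (B) Whenever `Phi K` holds,
`b_b^eq ≤ #K < non(E)` for all summable `b`. -/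
theorem result :
    (∃ Λ K : Type, 2 ≤ #K ∧ #K ^ ℵ₀ = #K ∧ #K < #Λ) ∧
    (∀ Λ K : Type, 2 ≤ #K → #K ^ ℵ₀ = #K → #K < #Λ →
      Nonempty (Cond Λ) ∧ ∀ p : Cond Λ, p ∈ PhiHolds (Cond Λ) K) ∧
    (∀ K : Type, Phi K → ∀ b : ℕ → ℕ, (∀ k, 1 ≤ b k) → Summable (fun k => (1 : ℝ) / b k) →
      beq b ≤ #K ∧ #K < nonE ∧ beq b < nonE) := by
  refine ⟨⟨Set (Set ℕ), Set ℕ, ?_, ?_, ?_⟩, fun Λ K h2 hK hΛ => ⟨inferInstance, phiHolds hK h2 hΛ⟩,
    fun K h b hb hs => ?_⟩
  · rw [mk_set, mk_nat, two_power_aleph0]
    exact (nat_lt_continuum 2).le
  · rw [mk_set, mk_nat, two_power_aleph0, continuum_power_aleph0]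
  · rw [mk_set (α := Set ℕ)]
    exact cantor _
  · have h1 := beq_le_of_summable h.2 hb hs
    have h2 := lt_nonE h.1
    exact ⟨h1, h2, h1.trans_lt h2⟩

end Pool.Agent.Results.MP_00464d_lc.EqBelowNonE
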